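import Pool.Agent.NS90.Defs
import Pool.Agent.FB90.ValueClass
import Pool.Agent.CB90.Up

/-!
# Values of forms without singular zeros

A nonzero value of a form `F` of degree `d` prime to `p` over a model is `γ t ^ i z ^ d`, and
`γ t ^ i` is a value over `k0`, if `d ≤ 3` or `F` has no singular zero over `F_p((t))`.
-/

set_option maxSynthPendingDepth 10

namespace NS90

open FT80 BF80 LD90

namespace VC

/-! ### Partial derivatives -/

/-- the partial derivative of a monomial -/
def pdm (i : ℕ) (m : ℕ × List ℕ) : PL :=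
  (List.range m.2.length).filterMap fun j =>
    if m.2[j]? = some i then some (m.1, m.2.eraseIdx j) else none

theorem pd_cons (i : ℕ) (m : ℕ × List ℕ) (F : PL) : pd i (m :: F) = pdm i m ++ pd i F := by
  rw [pd, List.flatMap_cons]
  rfl

theorem ev_append {R : Type*} [CommRing R] (t : R) (x : ℕ → R) (f g : PL) :
    ev t x (f ++ g) = ev t x f + ev t x g := by
  rw [ev, List.map_append, List.sum_append]
  rfl

theorem ev_cons {R : Type*} [CommRing R] (t : R) (x : ℕ → R) (m : ℕ × List ℕ) (f : PL) :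
    ev t x (m :: f) = t ^ m.1 * (m.2.map x).prod + ev t x f := by
  rw [ev, List.map_cons, List.sum_cons]
  rfl

theorem pdm_cons (i k a : ℕ) (l : List ℕ) : pdm i (k, a :: l) =
    (if a = i then [(k, l)] else []) ++ (pdm i (k, l)).map fun m => (m.1, a :: m.2) := by
  unfold pdm
  simp only [List.length_cons]
  rw [List.range_succ_eq_map, List.filterMap_cons, List.filterMap_map, List.map_filterMap]
  have h1 : ((fun j => if (a :: l)[j]? = some i then some (k, (a :: l).eraseIdx j) else none) ∘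
      Nat.succ) = fun j => Option.map (fun m : ℕ × List ℕ => (m.1, a :: m.2))
        (if l[j]? = some i then some (k, l.eraseIdx j) else none) := by
    funext j
    simp only [Function.comp_apply, Nat.succ_eq_add_one, List.getElem?_cons_succ,
      List.eraseIdx_cons_succ]
    split_ifs <;> rfl
  rw [h1]
  by_cases h : a = i
  · simp [h]
  · simp [h]

theorem ev_pdm_cons {R : Type*} [CommRing R] (t : R) (y : ℕ → R) (i k a : ℕ) (l : List ℕ) :
    ev t y (pdm i (k, a :: l)) =
      (if a = i then t ^ k * (l.map y).prod else 0) + y a * ev t y (pdm i (k, l)) := by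
  rw [pdm_cons, ev_append]
  congr 1
  · split_ifs
    · rw [ev_cons]
      simp [ev]
    · simp [ev]
  · rw [ev, ev, List.map_map, ← List.sum_map_mul_left]
    congr 1
    refine List.map_congr_left fun m _ => ?_
    simp only [Function.comp_apply, List.map_cons, List.prod_cons]
    ring

theorem der_pdm {K : Type*} [Field K] (t : K) (ξ : ℕ → K) (i k : ℕ) (l : List ℕ) :
    Polynomial.derivative ((Polynomial.C t) ^ k * (l.map fun a => Polynomial.C (ξ a) +
      if a = i then Polynomial.X else 0).prod) =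
      ev (Polynomial.C t) (fun a => Polynomial.C (ξ a) + if a = i then Polynomial.X else 0)
        (pdm i (k, l)) := by
  induction l with
  | nil =>
    rw [List.map_nil, List.prod_nil, mul_one, ← Polynomial.C_pow, Polynomial.derivative_C]
    rfl
  | cons a l ih =>
    rw [ev_pdm_cons, ← ih, List.map_cons, List.prod_cons]
    have h1 : Polynomial.derivative (Polynomial.C (ξ a) + if a = i then Polynomial.X else 0) =
        if a = i then 1 else 0 := by
      split_ifs
      · simp
      · simp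
    rw [mul_left_comm, Polynomial.derivative_mul, h1]
    split_ifs <;> ring

theorem der_ev {K : Type*} [Field K] (t : K) (ξ : ℕ → K) (i : ℕ) (F : PL) :
    Polynomial.derivative (ev (Polynomial.C t) (fun a => Polynomial.C (ξ a) +
      if a = i then Polynomial.X else 0) F) =
      ev (Polynomial.C t) (fun a => Polynomial.C (ξ a) + if a = i then Polynomial.X else 0)
        (pd i F) := by
  induction F with
  | nil =>
    show Polynomial.derivative (0 : Polynomial K) = 0
    rw [Polynomial.derivative_zero]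
  | cons m F ih => rw [ev_cons, pd_cons, ev_append, map_add, ih, der_pdm]

theorem eval_line {K : Type*} [Field K] (t : K) (ξ : ℕ → K) (i : ℕ) (y : K) (F : PL) :
    (ev (Polynomial.C t) (fun a => Polynomial.C (ξ a) + if a = i then Polynomial.X else 0)
      F).eval y = ev t (fun a => ξ a + if a = i then y else 0) F := by
  have h1 := ev_map (Polynomial.evalRingHom y) (Polynomial.C t)
    (fun a => Polynomial.C (ξ a) + if a = i then Polynomial.X else 0) F
  rw [Polynomial.coe_evalRingHom] at h1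
  rw [← h1]
  congr 1
  · simp
  · funext a
    split_ifs
    · simp
    · simp

/-! ### Polynomials -/

/-- the polynomial of a form -/
def cv (F : PL) : List (PL × List ℕ) := F.map fun m => ([(m.1, [])], m.2)

theorem qv_cv {R : Type*} [CommRing R] (t : R) (s x : ℕ → R) (F : PL) :
    CB90.qv t s x (cv F) = ev t x F := by
  rw [CB90.qv, cv, ev, List.map_map]
  congr 1
  refine List.map_congr_left fun m _ => ?_
  simp [ev]

theorem bq_cv {F : PL} {m : ℕ × List ℕ} (hm : m ∈ F) {i : ℕ} (hi : i ∈ m.2) :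
    i < CB90.bq (cv F) :=
  CB90.lt_bq (m := ([(m.1, [])], m.2)) (List.mem_map.2 ⟨m, hm, rfl⟩) hi

/-- transfer of values from `F_p((t))` to `k0` -/
theorem value_k0 {p : ℕ} [Fact p.Prime] (F : PL) (c : k0 p) (ξ : ℕ → KK p)
    (h : ev (tauK p Polynomial.X) ξ F = c) : ∃ y0 : ℕ → k0 p, ev (sig0 p Polynomial.X) y0 F = c := by
  classical
  set N := CB90.bq (cv F) with hN
  set f : MvPolynomial (Fin N) (k0 p) := CB90.QP N (sig0 p Polynomial.X) (fun _ => 0) (cv F) -
    MvPolynomial.C c with hf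
  obtain ⟨z, hz, -⟩ := ec p (fun a : Fin N => ξ a) {f} (by
    intro f' hf'
    rw [Finset.mem_singleton] at hf'
    rw [hf', hf, MvPolynomial.eval₂_sub, CB90.eval₂_QP, MvPolynomial.eval₂_C, qv_cv]
    have h1 : (k0 p).subtype (sig0 p Polynomial.X) = tauK p Polynomial.X := rfl
    rw [h1, sub_eq_zero]
    refine Eq.trans ?_ h
    apply Hg.ev_congr
    intro m hm i hi
    rw [CB90.ext, dif_pos (bq_cv hm hi)]) 1 (by
    rw [MvPolynomial.eval₂_one]
    exact one_ne_zero)
  refine ⟨CB90.ext z, ?_⟩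
  have h1 := hz f (Finset.mem_singleton_self _)
  rw [hf, map_sub, CB90.eval_QP, MvPolynomial.eval_C, qv_cv, sub_eq_zero] at h1
  exact h1

end VC

open VC

/-- NS-1 (ValueClass.lean): value_class for forms without singular zeros over `F_p((t))` -/
theorem value_class {p : ℕ} [Fact p.Prime] {M : Type} [Field M] {σ : P1 p →+* M}
    (hM : Mdl p σ) (F : PL) (d : ℕ) (hd : ¬ p ∣ d) (hF : ∀ m ∈ F, m.2.length = d)
    (hF' : d ≤ 3 ∨ ¬ Sing (HahnSeries.single 1 1 : LaurentSeries (ZMod p)) F) (y : ℕ → M) :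
    ∃ (γ i : ℕ) (z : M) (y0 : ℕ → k0 p), ev (σ Polynomial.X) y F =
      γ * σ Polynomial.X ^ i * z ^ d ∧
      ev (sig0 p Polynomial.X) y0 F = γ * sig0 p Polynomial.X ^ i := by
  classical
  rcases hF' with hd3 | hns
  · exact FB90.value_class hM F d hd hF (Or.inl hd3) y
  have hd0 : d ≠ 0 := fun h => hd (h ▸ dvd_zero p)
  by_cases h0 : ev (σ Polynomial.X) y F = 0
  · refine ⟨0, 0, 0, fun _ => 0, ?_, ?_⟩
    · rw [h0, Nat.cast_zero, zero_mul, zero_mul]
    · rw [FB90.VC.ev_zero _ hd0 F hF, Nat.cast_zero, zero_mul]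
  obtain ⟨γ, -, i, -, z, -, hz⟩ := hM.pow d hd _ h0
  have hz0 : z ≠ 0 := by
    rintro rfl
    rw [zero_pow hd0, mul_zero] at hz
    exact h0 hz
  set x : ℕ → M := fun k => y k / z with hx
  have hy : ev (σ Polynomial.X) x F = γ * σ Polynomial.X ^ i := by
    have h1 := FB90.VC.ev_div (σ Polynomial.X) z hz0 y F hF
    rw [hz, mul_comm] at h1
    exact (mul_left_cancel₀ (pow_ne_zero d hz0) h1).symm
  -- it is enough to find a solution over `F_p((t))`
  suffices hK : ∃ ξ : ℕ → KK p, ev (tauK p Polynomial.X) ξ F = γ * tauK p Polynomial.X ^ i by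
    obtain ⟨ξ, hξ⟩ := hK
    obtain ⟨y0, hy0⟩ := value_k0 F ((γ : k0 p) * sig0 p Polynomial.X ^ i) ξ (by
      rw [hξ]
      push_cast
      rfl)
    exact ⟨γ, i, z, y0, hz, hy0⟩
  -- standard parts of values
  have hpart : ∀ u : ℕ → M, (∀ m ∈ F, ∀ i ∈ m.2, u i ∈ hM.OC) → ∀ v : hM.OC,
      ev (σ Polynomial.X) u F = (v : M) → ∃ ξ : ℕ → KK p,
      (∀ a, ∀ h : u a ∈ hM.OC, ξ a = hM.st ⟨u a, h⟩) ∧ ev (tauK p Polynomial.X) ξ F = hM.st v := by
    intro u hu v hv
    have ht : σ Polynomial.X ∈ hM.OC := hM.OC_of_VO (hM.VO_σ _)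
    let u' : ℕ → hM.OC := fun a => if h : u a ∈ hM.OC then ⟨u a, h⟩ else 0
    refine ⟨fun a => hM.st (u' a), fun a h => ?_, ?_⟩
    · show hM.st (u' a) = _
      simp only [u', dif_pos h]
    · have h1 := ev_map hM.st (⟨σ Polynomial.X, ht⟩ : hM.OC) u' F
      rw [hM.st_σ] at h1
      rw [h1]
      congr 1
      have h2 := ev_map hM.OC.subtype (⟨σ Polynomial.X, ht⟩ : hM.OC) u' F
      apply Subtype.ext
      rw [← hv]
      refine h2.symm.trans ?_
      apply Hg.ev_congr
      intro m hm a ha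
      show ((u' a : hM.OC) : M) = u a
      simp only [u', dif_pos (hu m hm a ha)]
  have hcO : (γ : M) * σ Polynomial.X ^ i ∈ hM.OC := by
    have h1 : (γ : M) * σ Polynomial.X ^ i = σ ((γ : P1 p) * Polynomial.X ^ i) := by
      rw [map_mul, map_natCast, map_pow]
    rw [h1]
    exact hM.OC_of_VO (hM.VO_σ _)
  have hcst : hM.st ⟨(γ : M) * σ Polynomial.X ^ i, hcO⟩ = γ * tauK p Polynomial.X ^ i := by
    have h1 : (γ : M) * σ Polynomial.X ^ i = σ ((γ : P1 p) * Polynomial.X ^ i) := by
      rw [map_mul, map_natCast, map_pow]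
    have h2 : (⟨(γ : M) * σ Polynomial.X ^ i, hcO⟩ : hM.OC) =
        ⟨σ ((γ : P1 p) * Polynomial.X ^ i), h1 ▸ hcO⟩ := Subtype.ext h1
    rw [h2, hM.st_σ, map_mul, map_natCast, map_pow]
  by_cases hall : ∀ m ∈ F, ∀ i ∈ m.2, x i ∈ hM.OC
  · obtain ⟨ξ, -, hξ⟩ := hpart x hall ⟨_, hcO⟩ hy
    exact ⟨ξ, hξ.trans hcst⟩
  -- the coordinate of maximal value
  let W : Finset ℕ := (F.flatMap fun m => m.2).toFinset
  have hW : ∀ m ∈ F, ∀ i ∈ m.2, i ∈ W := fun m hm i hi =>
    List.mem_toFinset.2 (List.mem_flatMap.2 ⟨m, hm, hi⟩)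
  push Not at hall
  obtain ⟨m0, hm0, i0, hi0, hx0⟩ := hall
  obtain ⟨b, hbW, hb⟩ := Finset.exists_max_image W (fun a => hM.vc (x a)) ⟨i0, hW m0 hm0 i0 hi0⟩
  obtain ⟨mb, hmb, hbm⟩ := List.mem_flatMap.1 (List.mem_toFinset.1 hbW)
  have hb1 : 1 < hM.vc (x b) := by
    refine lt_of_lt_of_le ?_ (hb i0 (hW m0 hm0 i0 hi0))
    rw [← not_le, hM.vc_le_one]
    exact hx0
  have hxb : x b ≠ 0 := by
    intro h
    rw [h, map_zero] at hb1
    exact absurd hb1 (not_lt.2 zero_le)
  set u : ℕ → M := fun a => x a / x b with hu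
  have huO : ∀ m ∈ F, ∀ i ∈ m.2, u i ∈ hM.OC := by
    intro m hm a ha
    rw [← hM.vc_le_one, hu]
    simp only
    rw [map_div₀]
    exact div_le_one_of_le₀ (hb a (hW m hm a ha)) zero_le
  have hinv : hM.vc (x b)⁻¹ < 1 := by
    rw [map_inv₀]
    exact inv_lt_one_of_one_lt₀ hb1
  have hinvO : (x b)⁻¹ ∈ hM.OC := hM.vc_le_one.1 hinv.le
  obtain ⟨ξ, hξ1, hξ2⟩ := hpart u huO (⟨_, hcO⟩ * ⟨(x b)⁻¹, hinvO⟩ ^ d) (by
    have h1 := FB90.VC.ev_div (σ Polynomial.X) (x b) hxb x F hF
    rw [hy] at h1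
    show ev (σ Polynomial.X) u F = (γ : M) * σ Polynomial.X ^ i * (x b)⁻¹ ^ d
    rw [h1, hu, inv_pow]
    field_simp)
  have hξ0 : ev (tauK p Polynomial.X) ξ F = 0 := by
    rw [hξ2, map_mul, map_pow]
    have h1 : hM.st ⟨(x b)⁻¹, hinvO⟩ = 0 := (hM.sf_eq_zero hinvO).2 hinv
    rw [h1, zero_pow hd0, mul_zero]
  have hξb : ξ b ≠ 0 := by
    have h1 : u b = 1 := div_self hxb
    have h2 : u b ∈ hM.OC := huO mb hmb b hbm
    rw [hξ1 b h2]
    have h3 : (⟨u b, h2⟩ : hM.OC) = 1 := Subtype.ext h1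
    rw [h3, map_one]
    exact one_ne_zero
  have ht5 : tauK p Polynomial.X = (HahnSeries.single 1 1 : LaurentSeries (ZMod p)) := by
    rw [tauK, RingHom.comp_apply, tau_X]
    exact HahnSeries.ofPowerSeries_X
  obtain ⟨l, hl⟩ : ∃ l, ev (tauK p Polynomial.X) ξ (pd l F) ≠ 0 := by
    by_contra hcon
    push Not at hcon
    exact hns ⟨ξ, ⟨mb, hmb, b, hbm, hξb⟩, ht5 ▸ hcon⟩
  set t := tauK p Polynomial.X with ht
  set c : KK p := γ * t ^ i with hc
  set G : Polynomial (KK p) := ev (Polynomial.C t) (fun a => Polynomial.C (ξ a) +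
    if a = l then Polynomial.X else 0) F with hG
  have hG0 : ∀ y : KK p, G.eval y = ev t (fun a => ξ a + if a = l then y else 0) F :=
    fun y => eval_line t ξ l y F
  have hξl : (fun a => ξ a + if a = l then (0 : KK p) else 0) = ξ := by
    funext a
    rw [ite_self, add_zero]
  obtain ⟨e, w, hew, he⟩ := large (P := G.map Polynomial.C - Polynomial.C (Polynomial.C c *
      Polynomial.X ^ d)) (by
    rw [Polynomial.coeff_sub, Polynomial.coeff_map, Polynomial.coeff_C_zero, Polynomial.eval_sub,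
      Polynomial.eval_C, Polynomial.eval_mul, Polynomial.eval_pow, Polynomial.eval_X,
      zero_pow hd0, mul_zero, sub_zero, Polynomial.coeff_zero_eq_eval_zero, hG0, hξl]
    exact hξ0) (by
    rw [Polynomial.coeff_sub, Polynomial.coeff_map, Polynomial.coeff_C_of_ne_zero one_ne_zero,
      sub_zero, Polynomial.eval_C]
    have h1 : G.coeff 1 = (Polynomial.derivative G).eval 0 := by
      rw [← Polynomial.coeff_zero_eq_eval_zero, Polynomial.coeff_derivative]
      simp
    rw [h1, hG, der_ev, eval_line, hξl]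
    exact hl) (r := Polynomial.X) Polynomial.X_ne_zero
  rw [Polynomial.eval_X] at he
  have h3 : (G.map Polynomial.C - Polynomial.C (Polynomial.C c * Polynomial.X ^ d)).map
      (Polynomial.evalRingHom e) = G - Polynomial.C (c * e ^ d) := by
    rw [Polynomial.map_sub, Polynomial.map_map, Polynomial.map_C]
    congr 1
    · have h4 : (Polynomial.evalRingHom e).comp Polynomial.C = RingHom.id (KK p) := by
        ext a
        simp
      rw [h4, Polynomial.map_id]
    · congr 1
      simp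
  rw [h3, Polynomial.eval_sub, Polynomial.eval_C, hG0, sub_eq_zero] at hew
  refine ⟨fun k => (ξ k + if k = l then w else 0) / e, ?_⟩
  have h4 := FB90.VC.ev_div t e he (fun a => ξ a + if a = l then w else 0) F hF
  rw [hew, mul_comm] at h4
  exact (mul_left_cancel₀ (pow_ne_zero d he) h4).symm

end NS90
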