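import Pool.Agent.NS90.Defs
import Pool.Agent.DS90.Dec

/-!
# The decision wrapper for systems over a base of dimension one, forms without singular zeros

The condition on the forms is decidable, too, as the existence of a singular zero does not depend
on the model.
-/

set_option maxSynthPendingDepth 10
set_option autoImplicit false

open Polynomial

namespace NS90

open FT80 BF80 LD90

namespace De

open CB90.De (ren)

/-! ### Singular zeros -/

/-- the list of the variables -/
def vl (F : PL) : List ℕ := F.flatMap fun m => m.2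

/-- the sum of the products of the variables and new variables -/
def wl (L : List ℕ) : PL := (List.range L.length).map fun k => (0, [2 * L.getD k 0, 2 * k + 1])

/-- there is a singular zero -/
def trS (F : PL) : List PL × PL :=
  ((vl F).map fun i => ren (fun k => 2 * k) (pd i F), wl (vl F))

section sem

variable {R : Type*} [CommRing R] (t : R)

theorem pd_nil {i : ℕ} {F : PL} (h : i ∉ vl F) : pd i F = [] := by
  induction F with
  | nil => rfl
  | cons m F ih =>
    have h1 : i ∉ m.2 ∧ i ∉ vl F := by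
      have h2 : vl (m :: F) = m.2 ++ vl F := by simp [vl]
      rw [h2, List.mem_append, not_or] at h
      exact h
    have h3 : pd i (m :: F) = ((List.range m.2.length).filterMap fun j =>
        if m.2[j]? = some i then some (m.1, m.2.eraseIdx j) else none) ++ pd i F := by
      simp [pd]
    rw [h3, ih h1.2, List.append_nil, List.filterMap_eq_nil_iff]
    intro j _
    rw [if_neg]
    intro hj
    exact h1.1 (List.mem_of_getElem? hj)

theorem ev_wl (X : ℕ → R) (L : List ℕ) : ev t X (wl L) =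
    ∑ k ∈ Finset.range L.length, X (2 * L.getD k 0) * X (2 * k + 1) := by
  have h1 : ∀ n : ℕ, ev t X ((List.range n).map fun k => (0, [2 * L.getD k 0, 2 * k + 1])) =
      ∑ k ∈ Finset.range n, X (2 * L.getD k 0) * X (2 * k + 1) := by
    intro n
    induction n with
    | zero => simp [ev]
    | succ n ih =>
      rw [List.range_succ, List.map_append, DS90.De.ev_append, ih, Finset.sum_range_succ]
      simp [ev]
  exact h1 _

theorem trS_iff (F : PL) : Sol t (trS F) ↔ Sing t F := by
  have hmem : ∀ i, i ∈ vl F ↔ ∃ m ∈ F, i ∈ m.2 := by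
    intro i
    simp only [vl, List.mem_flatMap]
  constructor
  · rintro ⟨X, h1, h2⟩
    refine ⟨fun i => X (2 * i), ?_, ?_⟩
    · by_contra hcon
      push Not at hcon
      apply h2
      show ev t X (wl (vl F)) = 0
      rw [ev_wl]
      apply Finset.sum_eq_zero
      intro k hk
      have hk' : k < (vl F).length := Finset.mem_range.1 hk
      have h3 : (vl F).getD k 0 ∈ vl F := by
        rw [List.getD_eq_getElem?_getD, List.getElem?_eq_getElem hk']
        exact List.getElem_mem hk'
      obtain ⟨m, hm, hi⟩ := (hmem _).1 h3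
      rw [hcon m hm _ hi, zero_mul]
    · intro i
      by_cases hi : i ∈ vl F
      · have h3 := h1 (ren (fun k => 2 * k) (pd i F)) (List.mem_map.2 ⟨i, hi, rfl⟩)
        rw [CB90.De.ev_ren] at h3
        exact h3
      · rw [pd_nil hi]
        rfl
  · rintro ⟨y, ⟨m, hm, i, hi, hy⟩, h2⟩
    obtain ⟨k, hk, hk2⟩ := List.mem_iff_getElem.1 ((hmem i).2 ⟨m, hm, hi⟩)
    let X : ℕ → R := fun v => if v % 2 = 0 then y (v / 2) else if v / 2 = k then 1 else 0
    have e0 : ∀ i, X (2 * i) = y i := by
      intro i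
      have a1 : 2 * i % 2 = 0 := by omega
      have a2 : 2 * i / 2 = i := by omega
      simp only [X, a1, a2, if_true]
    have e1 : ∀ j, X (2 * j + 1) = if j = k then 1 else 0 := by
      intro j
      have a1 : ¬ (2 * j + 1) % 2 = 0 := by omega
      have a2 : (2 * j + 1) / 2 = j := by omega
      simp only [X, a1, a2, if_false]
    refine ⟨X, ?_, ?_⟩
    · intro g hg
      obtain ⟨i', _, rfl⟩ := List.mem_map.1 hg
      rw [CB90.De.ev_ren]
      have e2 : (fun i => X (2 * i)) = y := funext e0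
      rw [e2]
      exact h2 i'
    · show ev t X (wl (vl F)) ≠ 0
      rw [ev_wl, Finset.sum_eq_single k]
      · rw [e0, e1, if_pos rfl, mul_one, List.getD_eq_getElem?_getD, List.getElem?_eq_getElem hk,
          Option.getD_some, hk2]
        exact hy
      · intro j _ hj
        rw [e1, if_neg hj, mul_zero]
      · intro hk'
        exact absurd (Finset.mem_range.2 hk) hk'

end sem

section prim

open Primrec

theorem primrec_eraseIdx : Primrec₂ fun (l : List ℕ) (j : ℕ) => l.eraseIdx j := by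
  have h : Primrec fun x : List ℕ × ℕ => x.1.take x.2 ++ x.1.drop (x.2 + 1) :=
    Primrec.list_append.comp (Primrec.list_take.comp Primrec.snd Primrec.fst)
      (Primrec.list_drop.comp (Primrec.succ.comp Primrec.snd) Primrec.fst)
  refine h.of_eq fun x => ?_
  show _ = x.1.eraseIdx x.2
  rw [List.eraseIdx_eq_take_drop_succ]

theorem primrec_pd : Primrec₂ pd := by
  have h1 : Primrec₂ (fun (x : ℕ × PL) (m : ℕ × List ℕ) =>
      (List.range m.2.length).filterMap fun j =>
        if m.2[j]? = some x.1 then some (m.1, m.2.eraseIdx j) else none) := by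
    have c0 : Primrec (fun z : ((ℕ × PL) × (ℕ × List ℕ)) × ℕ => z.1.1.1) :=
      Primrec.fst.comp (Primrec.fst.comp Primrec.fst)
    have c1 : Primrec (fun z : ((ℕ × PL) × (ℕ × List ℕ)) × ℕ => z.1.2.1) :=
      Primrec.fst.comp (Primrec.snd.comp Primrec.fst)
    have c2 : Primrec (fun z : ((ℕ × PL) × (ℕ × List ℕ)) × ℕ => z.1.2.2) :=
      Primrec.snd.comp (Primrec.snd.comp Primrec.fst)
    have h2 : PrimrecPred (fun z : ((ℕ × PL) × (ℕ × List ℕ)) × ℕ => z.1.2.2[z.2]? =
        some z.1.1.1) :=
      Primrec.eq.comp (Primrec.list_getElem?.comp c2 Primrec.snd) (Primrec.option_some.comp c0)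
    have h3 : Primrec (fun z : ((ℕ × PL) × (ℕ × List ℕ)) × ℕ =>
        some (z.1.2.1, z.1.2.2.eraseIdx z.2)) :=
      Primrec.option_some.comp (Primrec.pair c1 (primrec_eraseIdx.comp c2 Primrec.snd))
    exact Primrec.listFilterMap (Primrec.list_range.comp
      (Primrec.list_length.comp (Primrec.snd.comp Primrec.snd)))
      (Primrec.ite h2 h3 (Primrec.const none)).to₂
  exact Primrec.list_flatMap (f := fun x : ℕ × PL => x.2) Primrec.snd h1

theorem primrec_vl : Primrec vl :=
  Primrec.list_flatMap (f := fun F : PL => F) Primrec.id (Primrec.snd.comp Primrec.snd).to₂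

theorem primrec_wl : Primrec wl := by
  have h1 : Primrec₂ fun (L : List ℕ) (k : ℕ) =>
      (((0 : ℕ), [2 * L.getD k 0, 2 * k + 1]) : ℕ × List ℕ) := by
    have c1 : Primrec fun x : List ℕ × ℕ => 2 * x.1.getD x.2 0 :=
      Primrec.nat_mul.comp (Primrec.const 2) ((Primrec.list_getD (0 : ℕ)).comp Primrec.fst
        Primrec.snd)
    have c2 : Primrec fun x : List ℕ × ℕ => 2 * x.2 + 1 :=
      Primrec.succ.comp (Primrec.nat_mul.comp (Primrec.const 2) Primrec.snd)
    exact Primrec.pair (Primrec.const 0) (Primrec.list_cons.comp c1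
      (Primrec.list_cons.comp c2 (Primrec.const [])))
  exact Primrec.list_map (Primrec.list_range.comp Primrec.list_length) h1

theorem primrec_trS : Primrec trS := by
  have h1 : Primrec₂ fun (F : PL) (i : ℕ) => ren (fun k => 2 * k) (pd i F) := by
    have h2 : Primrec₂ fun (_ : Unit) (k : ℕ) => 2 * k :=
      Primrec.nat_mul.comp (Primrec.const 2) Primrec.snd
    exact (DS90.De.primrec_ren h2).comp (Primrec.const ())
      (primrec_pd.comp Primrec.snd Primrec.fst)
  exact Primrec.pair (Primrec.list_map primrec_vl h1) (primrec_wl.comp primrec_vl)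

/-- homogeneous polynomials -/
def Hom (F : PL) : Prop := ∀ m ∈ F, m.2.length = FB90.De.d0 F

theorem primrec_d0 : Primrec FB90.De.d0 := Primrec.list_length.comp (Primrec.snd.comp
  (Primrec.list_headI : Primrec (@List.headI (ℕ × List ℕ) _)))

theorem primrec_hom : PrimrecPred Hom := by
  have r2 : PrimrecRel fun (m : ℕ × List ℕ) (d : ℕ) => m.2.length = d :=
    Primrec.eq.comp (Primrec.list_length.comp (Primrec.snd.comp Primrec.fst)) Primrec.snd
  exact (PrimrecRel.forall_mem_list r2).comp Primrec.id primrec_d0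

end prim

/-! ### Decision over a domain with a decision procedure -/

open Wr in
/-- the decision procedure for translated systems, over a decidable domain -/
theorem decide_comp (p : ℕ) [Fact p.Prime] {α : Type} [Primcodable α] (τ : α → List PL × PL)
    (hτ : Primrec τ) (dom : α → Bool) (hdom : Computable dom)
    (h : ∀ (M : Type) [Field M] (σ : P1 p →+* M), Mdl p σ → ∀ a, dom a = true →
      (Sol (σ X) (τ a) ↔ Sol (tauK p X) (τ a))) :
    ∃ D : α → Bool, Computable D ∧
      ∀ a, dom a = true → (D a = true ↔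
        Sol (HahnSeries.single 1 1 : LaurentSeries (ZMod p)) (τ a)) := by
  obtain ⟨AL, hAL, hsound, hcomplete⟩ := exists_axioms p
  obtain ⟨P, hP, hPe⟩ := re_conseq AL hAL
  obtain ⟨G, hG⟩ : ∃ G : α → FR, G = OP90.De.TFg τ (fun a => dom a = true) := ⟨_, rfl⟩
  have hg : Computable (fun a : α => (G a).code) := by
    have h1 : Computable (fun a : α => Wr.kExc (Wr.SysF (τ a)).code
        ((Wr.SysF (τ a)).code + 1)) :=
      (Wr.primrec_kExc.comp (Wr.primrec_SysF.comp hτ)
        (Primrec.succ.comp (Wr.primrec_SysF.comp hτ))).to_comp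
    have h2 : Computable (fun a : α => cond (dom a)
        (Wr.kExc (Wr.SysF (τ a)).code ((Wr.SysF (τ a)).code + 1)) (Nat.pair 0 (Nat.pair 0 0))) :=
      Computable.cond hdom h1 (Computable.const _)
    refine h2.of_eq fun a => ?_
    by_cases h : dom a = true
    · simp only [hG, OP90.De.TFg, h, if_true, Wr.code_exc, cond_true]
    · have h' : dom a = false := by simpa using h
      simp only [hG, OP90.De.TFg, h', cond_false]
      rfl
  have hg2 : Computable (fun a : α => Nat.pair 6 (G a).code) :=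
    (Primrec₂.natPair.comp (Primrec.const 6) Primrec.id).to_comp.comp hg
  -- the truth value does not depend on the model
  have hmod : ∀ a, ∀ (β : Type) (R : RS β), (∀ n e, Sat R e (AL n)) → ∀ x : β,
      (Sat R (fun _ => x) (G a) ↔ (dom a = true → Sol (tauK p X) (τ a))) := by
    intro a β R hR x
    by_cases hd : dom a = true
    · obtain ⟨F, σ, rfl, hσ⟩ := @hcomplete β ⟨x⟩ R hR
      have e1 : G a = exc (SysF (τ a)) ((SysF (τ a)).code + 1) := by
        simp only [hG, OP90.De.TFg, hd, if_true]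
      rw [e1, sat_exc_code, exists_sat, h β σ hσ a hd]
      exact ⟨fun h' _ => h', fun h' => h' hd⟩
    · have e1 : G a = .eq 0 0 := by
        rw [hG, OP90.De.TFg, if_neg hd]
      rw [e1]
      exact ⟨fun _ h' => absurd h' hd, fun _ => rfl⟩
  have hKK : Mdl p (tauK p) := mdl_KK
  have h1 : ∀ a, (P (G a).code ↔ (dom a = true → Sol (tauK p X) (τ a))) := by
    intro a
    rw [hPe]
    constructor
    · intro h'
      exact (hmod a (KK p) (ringRS (tauK p X)) (hsound (KK p) (tauK p) hKK) 0).1
        (h' (KK p) _ (hsound (KK p) (tauK p) hKK) 0)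
    · intro h' β R hR x
      exact (hmod a β R hR x).2 h'
  have h2 : ∀ a, (P (Nat.pair 6 (G a).code) ↔
      ¬ (dom a = true → Sol (tauK p X) (τ a))) := by
    intro a
    refine (hPe (.neg (G a))).trans ?_
    constructor
    · intro h' h''
      exact h' (KK p) _ (hsound (KK p) (tauK p) hKK) 0
        ((hmod a (KK p) (ringRS (tauK p X)) (hsound (KK p) (tauK p) hKK) 0).2 h'')
    · intro h' β R hR x h''
      exact h' ((hmod a β R hR x).1 h'')
  have h3 : ComputablePred (fun a : α => P (G a).code) := by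
    rw [ComputablePred.computable_iff_re_compl_re']
    have h4 : REPred (fun a : α => P (Nat.pair 6 (G a).code)) := hP.comp hg2
    refine ⟨hP.comp hg, h4.of_eq fun a => ?_⟩
    rw [h1 a]
    exact h2 a
  obtain ⟨D, hD, hDe⟩ := ComputablePred.computable_iff.1 h3
  refine ⟨D, hD, fun a ha => ?_⟩
  have h4 := congrFun hDe a
  rw [← iff_eq_eq] at h4
  rw [← h4, h1 a]
  have h5 : tauK p X = (HahnSeries.single 1 1 : LaurentSeries (ZMod p)) := by
    rw [tauK, RingHom.comp_apply, tau_X]
    exact HahnSeries.ofPowerSeries_X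
  rw [← h5]
  exact ⟨fun h' => h' ha, fun h' _ => h'⟩

/-! ### The condition on the forms -/

/-- the existence of a singular zero of a homogeneous polynomial is decidable -/
theorem decide_sing (p : ℕ) [Fact p.Prime]
    (hs : ∀ (M : Type) [Field M] (σ : P1 p →+* M), Mdl p σ → ∀ (F : PL) (d : ℕ),
      (∀ m ∈ F, m.2.length = d) → (Sing (σ X) F ↔ Sing (tauK p X) F)) :
    ∃ D : PL → Bool, Computable D ∧ ∀ F : PL, Hom F → (D F = true ↔
      Sing (HahnSeries.single 1 1 : LaurentSeries (ZMod p)) F) := by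
  obtain ⟨D, hD, hDe⟩ := OP90.De.decide_gen p trS primrec_trS Hom primrec_hom
    (fun M _ σ hM F hF => by
      rw [trS_iff, trS_iff]
      exact hs M σ hM F _ hF)
  refine ⟨D, hD, fun F hF => ?_⟩
  rw [hDe F hF, trS_iff]

theorem form_iff (p : ℕ) [Fact p.Prime] (F : PL) : Form p F ↔ F.length = 0 ∨
    (¬ FB90.De.d0 F % p = 0 ∧ Hom F ∧ (FB90.De.d0 F ≤ 3 ∨
      ¬ Sing (HahnSeries.single 1 1 : LaurentSeries (ZMod p)) F)) := by
  constructor
  · rintro ⟨d, h1, h2, h3⟩
    rcases F with _ | ⟨m, F⟩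
    · exact Or.inl rfl
    · have hd : FB90.De.d0 (m :: F) = d := h2 m List.mem_cons_self
      rw [Hom, hd]
      exact Or.inr ⟨fun h => h1 (Nat.dvd_of_mod_eq_zero h), h2, h3⟩
  · rintro (h | ⟨h1, h2, h3⟩)
    · have hF : F = [] := List.length_eq_zero_iff.1 h
      subst hF
      refine ⟨1, fun h => (Fact.out : p.Prime).one_lt.ne' (Nat.dvd_one.1 h), ?_,
        Or.inl (by norm_num)⟩
      intro m hm
      simp at hm
    · exact ⟨FB90.De.d0 F, fun h => h1 (Nat.mod_eq_zero_of_dvd h), h2, h3⟩

theorem decide_form (p : ℕ) [Fact p.Prime]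
    (hs : ∀ (M : Type) [Field M] (σ : P1 p →+* M), Mdl p σ → ∀ (F : PL) (d : ℕ),
      (∀ m ∈ F, m.2.length = d) → (Sing (σ X) F ↔ Sing (tauK p X) F)) :
    ∃ D : PL → Bool, Computable D ∧ ∀ F : PL, (D F = true ↔ Form p F) := by
  obtain ⟨D, hD, hDe⟩ := decide_sing p hs
  have e0 : PrimrecPred fun F : PL => F.length = 0 :=
    Primrec.eq.comp Primrec.list_length (Primrec.const 0)
  have e1 : PrimrecPred fun F : PL => FB90.De.d0 F % p = 0 :=
    Primrec.eq.comp (Primrec.nat_mod.comp primrec_d0 (Primrec.const p)) (Primrec.const 0)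
  have e3 : PrimrecPred fun F : PL => FB90.De.d0 F ≤ 3 :=
    Primrec.nat_le.comp primrec_d0 (Primrec.const 3)
  obtain ⟨_, h0⟩ := e0
  obtain ⟨_, h1⟩ := e1.not.and primrec_hom
  obtain ⟨_, h3⟩ := e3
  refine ⟨fun F => decide (F.length = 0) || (decide (¬ FB90.De.d0 F % p = 0 ∧ Hom F) &&
    (decide (FB90.De.d0 F ≤ 3) || !(D F))), ?_, ?_⟩
  · exact Primrec.or.to_comp.comp h0.to_comp (Primrec.and.to_comp.comp h1.to_comp
      (Primrec.or.to_comp.comp h3.to_comp (Primrec.not.to_comp.comp hD)))
  · intro F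
    rw [form_iff]
    simp only [Bool.or_eq_true, Bool.and_eq_true, decide_eq_true_eq, Bool.not_eq_true']
    refine or_congr_right ?_
    rw [and_assoc]
    refine and_congr_right fun _ => and_congr_right fun hF => or_congr_right ?_
    rw [← hDe F hF]
    simp

/-- a property of all entries of the list -/
def allC {α : Type} (D : α → Bool) (d : α) (L : List α) : Bool :=
  Nat.rec true (fun i b => b && D (L.getD i d)) L.length

theorem allC_iff {α : Type} (D : α → Bool) (d : α) (L : List α) :
    allC D d L = true ↔ ∀ m ∈ L, D m = true := by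
  have h1 : ∀ n : ℕ, (Nat.rec true (fun i b => b && D (L.getD i d)) n : Bool) = true ↔
      ∀ j < n, D (L.getD j d) = true := by
    intro n
    induction n with
    | zero => simp
    | succ n ih =>
      show ((Nat.rec true (fun i b => b && D (L.getD i d)) n : Bool) && D (L.getD n d)) = true ↔ _
      rw [Bool.and_eq_true, ih]
      constructor
      · rintro ⟨h1, h2⟩ i hi
        rcases Nat.lt_succ_iff_lt_or_eq.1 hi with hi | rfl
        · exact h1 i hi
        · exact h2
      · intro h
        exact ⟨fun i hi => h i (by omega), h n (by omega)⟩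
  rw [allC, h1, DS90.De.mem_getD d L (fun m => D m = true)]

theorem computable_allC {α : Type} [Primcodable α] {D : α → Bool} (hD : Computable D) (d : α) :
    Computable (allC D d) := by
  have h1 : Computable₂ fun (L : List α) (y : ℕ × Bool) => y.2 && D (L.getD y.1 d) := by
    have c1 : Computable fun x : List α × (ℕ × Bool) => x.2.2 :=
      Computable.snd.comp Computable.snd
    have c2 : Computable fun x : List α × (ℕ × Bool) => x.1.getD x.2.1 d :=
      ((Primrec.list_getD d).comp Primrec.fst (Primrec.fst.comp Primrec.snd)).to_comp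
    exact Primrec.and.to_comp.comp c1 (hD.comp c2)
  exact Computable.nat_rec (f := fun L : List α => L.length) (g := fun _ => true)
    Computable.list_length (Computable.const true) h1

/-- the conditions on inputs, except for the forms -/
def Adm0 (p : ℕ) (a : Inp) : Prop :=
  (∀ i ∈ List.range a.1.length, Vars (i + 1) (a.1.getD i [])) ∧
    (∀ l ∈ a.2.1, Deg a.1.length 1 l) ∧
    (∀ l ∈ a.2.2.1, Deg a.1.length 1 l) ∧
    (∀ m ∈ a.2.2.2.1, Deg a.1.length 1 m.1) ∧
    (∀ m ∈ a.2.2.2.2.1, Deg a.1.length 1 m.1 ∧ Deg a.1.length (if p = 2 then 1 else 2) m.2) ∧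
    ∀ m ∈ a.2.2.2.2.2, Deg a.1.length 1 m.1 ∧ Deg a.1.length 1 m.2

theorem primrec_adm0 (p : ℕ) : PrimrecPred (Adm0 p) := by
  have hn : Primrec fun a : Inp => a.1.length := Primrec.list_length.comp DS90.De.p1
  have pdeg : ∀ d : ℕ, PrimrecRel fun (f : PZ) (n : ℕ) => Deg n d f := DS90.De.primrec_deg
  have pvars : PrimrecRel fun (c : PL) (n : ℕ) => Vars n c := CB90.De.primrec_vars
  have c1 : PrimrecPred fun a : Inp =>
      ∀ i ∈ List.range a.1.length, Vars (i + 1) (a.1.getD i []) := by
    have h6 : PrimrecRel fun (i : ℕ) (B : List PL) => Vars (i + 1) (B.getD i []) := by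
      have c1 : Primrec fun x : ℕ × List PL => x.2.getD x.1 [] :=
        (Primrec.list_getD ([] : PL)).comp Primrec.snd Primrec.fst
      exact pvars.comp c1 (Primrec.succ.comp Primrec.fst)
    exact (PrimrecRel.forall_mem_list h6).comp (Primrec.list_range.comp hn) DS90.De.p1
  have c2 : PrimrecPred fun a : Inp => ∀ l ∈ a.2.1, Deg a.1.length 1 l :=
    (PrimrecRel.forall_mem_list (pdeg 1)).comp DS90.De.p2 hn
  have c3 : PrimrecPred fun a : Inp => ∀ l ∈ a.2.2.1, Deg a.1.length 1 l :=
    (PrimrecRel.forall_mem_list (pdeg 1)).comp DS90.De.p3 hn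
  have c4 : PrimrecPred fun a : Inp => ∀ m ∈ a.2.2.2.1, Deg a.1.length 1 m.1 := by
    have h1 : PrimrecRel fun (m : PZ × PL) (n : ℕ) => Deg n 1 m.1 :=
      (pdeg 1).comp (Primrec.fst.comp Primrec.fst) Primrec.snd
    exact (PrimrecRel.forall_mem_list h1).comp DS90.De.p4 hn
  have h2 : ∀ d : ℕ, PrimrecRel fun (m : PZ × PZ) (n : ℕ) => Deg n 1 m.1 ∧ Deg n d m.2 := by
    intro d
    have e0 : PrimrecPred fun x : (PZ × PZ) × ℕ => Deg x.2 1 x.1.1 :=
      (pdeg 1).comp (Primrec.fst.comp Primrec.fst) Primrec.snd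
    have e1 : PrimrecPred fun x : (PZ × PZ) × ℕ => Deg x.2 d x.1.2 :=
      (pdeg d).comp (Primrec.snd.comp Primrec.fst) Primrec.snd
    exact e0.and e1
  have c5 : PrimrecPred fun a : Inp => ∀ m ∈ a.2.2.2.2.1,
      Deg a.1.length 1 m.1 ∧ Deg a.1.length (if p = 2 then 1 else 2) m.2 :=
    (PrimrecRel.forall_mem_list (h2 _)).comp DS90.De.p5 hn
  have c6 : PrimrecPred fun a : Inp => ∀ m ∈ a.2.2.2.2.2,
      Deg a.1.length 1 m.1 ∧ Deg a.1.length 1 m.2 :=
    (PrimrecRel.forall_mem_list (h2 _)).comp DS90.De.p6 hn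
  exact c1.and (c2.and (c3.and (c4.and (c5.and c6))))

theorem adm_iff (p : ℕ) [Fact p.Prime] (a : Inp) :
    Adm p a ↔ Adm0 p a ∧ ∀ F ∈ a.2.2.2.1.map Prod.snd, Form p F := by
  obtain ⟨B, E, N, F, Q, V⟩ := a
  have h1 : (∀ i b, B[i]? = some b → Vars (i + 1) b) ↔
      ∀ i ∈ List.range B.length, Vars (i + 1) (B.getD i []) := by
    constructor
    · intro h i hi
      have hi' : i < B.length := List.mem_range.1 hi
      refine h i _ ?_
      rw [List.getD_eq_getElem?_getD, List.getElem?_eq_getElem hi']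
      rfl
    · intro h i b hb
      have hi : i < B.length := by
        by_contra hi
        rw [List.getElem?_eq_none (by omega)] at hb
        exact absurd hb (by simp)
      have h8 := h i (List.mem_range.2 hi)
      have h9 : B.getD i [] = b := by
        rw [List.getD_eq_getElem?_getD, hb]
        rfl
      rw [← h9]
      exact h8
  show ((∀ i b, B[i]? = some b → Vars (i + 1) b) ∧ (∀ l ∈ E, Deg B.length 1 l) ∧
    (∀ l ∈ N, Deg B.length 1 l) ∧ (∀ m ∈ F, Deg B.length 1 m.1 ∧ Form p m.2) ∧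
    (∀ m ∈ Q, Deg B.length 1 m.1 ∧ Deg B.length (if p = 2 then 1 else 2) m.2) ∧
    ∀ m ∈ V, Deg B.length 1 m.1 ∧ Deg B.length 1 m.2) ↔
    ((∀ i ∈ List.range B.length, Vars (i + 1) (B.getD i [])) ∧ (∀ l ∈ E, Deg B.length 1 l) ∧
    (∀ l ∈ N, Deg B.length 1 l) ∧ (∀ m ∈ F, Deg B.length 1 m.1) ∧
    (∀ m ∈ Q, Deg B.length 1 m.1 ∧ Deg B.length (if p = 2 then 1 else 2) m.2) ∧
    ∀ m ∈ V, Deg B.length 1 m.1 ∧ Deg B.length 1 m.2) ∧ ∀ f ∈ F.map Prod.snd, Form p f
  rw [h1, List.forall_mem_map]
  constructor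
  · rintro ⟨a1, a2, a3, a4, a5, a6⟩
    exact ⟨⟨a1, a2, a3, fun m hm => (a4 m hm).1, a5, a6⟩, fun m hm => (a4 m hm).2⟩
  · rintro ⟨⟨a1, a2, a3, a4, a5, a6⟩, a7⟩
    exact ⟨a1, a2, a3, fun m hm => ⟨a4 m hm, a7 m hm⟩, a5, a6⟩

theorem psol_iff {R : Type*} [CommRing R] (t : R) (r : R → R → Prop) (a : Inp) :
    PSol t r a ↔ DS90.PSol t r a := by
  obtain ⟨B, E, N, F, Q, V⟩ := a
  exact Iff.rfl

end De

open De in
/-- the decision wrapper, from the transfer of singular zeros -/
theorem decide_psol_of (p : ℕ) [Fact p.Prime]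
    (hs : ∀ (M : Type) [Field M] (σ : P1 p →+* M), Mdl p σ → ∀ (F : PL) (d : ℕ),
      (∀ m ∈ F, m.2.length = d) → (Sing (σ X) F ↔ Sing (tauK p X) F))
    (h : ∀ (M : Type) [Field M] (σ : P1 p →+* M), Mdl p σ → ∀ a : Inp,
      Adm p a → (PSol (σ Polynomial.X) (DV (σ Polynomial.X)) a ↔
        PSol (tauK p Polynomial.X) (DV (tauK p Polynomial.X)) a)) :
    ∃ D : Inp → Bool, Computable D ∧ ∀ a : Inp, Adm p a → (D a = true ↔
      PSol (HahnSeries.single 1 1 : LaurentSeries (ZMod p))
        (fun x y => ∃ c : PowerSeries (ZMod p), (c : LaurentSeries (ZMod p)) * x = y) a) := by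
  have hp : 1 ≤ p := (Fact.out : p.Prime).one_lt.le
  have hR : ∀ (M : Type) [Field M] (σ : P1 p →+* M), (p : M) = 0 := by
    intro M _ σ
    have h1 : ((p : ℕ) : P1 p) = 0 := CharP.cast_eq_zero (P1 p) p
    rw [← map_natCast σ, h1, map_zero]
  obtain ⟨DF, hDF, hDFe⟩ := decide_form p hs
  obtain ⟨_, hA⟩ := primrec_adm0 p
  obtain ⟨dom, hdom0⟩ : ∃ dom : Inp → Bool, dom = fun a =>
      decide (Adm0 p a) && allC DF [] (a.2.2.2.1.map Prod.snd) := ⟨_, rfl⟩
  have hdom : Computable dom := by
    rw [hdom0]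
    have h1 : Computable fun a : Inp => a.2.2.2.1.map Prod.snd :=
      (Primrec.list_map DS90.De.p4 (Primrec.snd.comp Primrec.snd).to₂).to_comp
    exact Primrec.and.to_comp.comp hA.to_comp ((computable_allC hDF []).comp h1)
  have hdome : ∀ a, dom a = true ↔ Adm p a := by
    intro a
    rw [hdom0, adm_iff]
    simp only [Bool.and_eq_true, decide_eq_true_eq]
    rw [allC_iff]
    simp only [hDFe]
  obtain ⟨D, hD, hDe⟩ := decide_comp p (DS90.De.tr p) (DS90.De.primrec_tr p) dom hdom
    (fun M _ σ hM a ha => by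
      rw [DS90.De.tr_iff _ hp (hR M σ), DS90.De.tr_iff _ hp (hR _ (tauK p)), ← psol_iff,
        ← psol_iff]
      exact h M σ hM a ((hdome a).1 ha))
  refine ⟨D, hD, fun a ha => ?_⟩
  have ht : tauK p Polynomial.X = (HahnSeries.single 1 1 : LaurentSeries (ZMod p)) := by
    rw [tauK, RingHom.comp_apply, tau_X]
    exact HahnSeries.ofPowerSeries_X
  have h3 : DV (HahnSeries.single 1 1 : LaurentSeries (ZMod p)) =
      (fun a b : LaurentSeries (ZMod p) => ∃ c : PowerSeries (ZMod p),
        (c : LaurentSeries (ZMod p)) * a = b) := by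
    funext a b
    refine propext ⟨?_, ?_⟩
    · rintro ⟨c, hc, hcb⟩
      have hc' : VO (tauK p Polynomial.X) c := by
        rw [ht]
        exact hc
      obtain ⟨r, rfl⟩ := (VO_KK c).1 hc'
      exact ⟨r, hcb⟩
    · rintro ⟨r, hr⟩
      have hc' : VO (tauK p Polynomial.X) (iK p r) := (VO_KK _).2 ⟨r, rfl⟩
      rw [ht] at hc'
      exact ⟨iK p r, hc', hr⟩
  rw [hDe a ((hdome a).2 ha), DS90.De.tr_iff _ hp (hR (LaurentSeries (ZMod p)) (tauK p)), h3,
    psol_iff]

end NS90
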