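import Pool.Agent.NS90.Defs
import Pool.Agent.LD90.CtxM
import Pool.Agent.LD90.NF
import Pool.Agent.LD90.Homog
import Pool.Agent.LD90.Final

/-!
# Transfer of singular zeros of forms
-/

set_option maxSynthPendingDepth 10

namespace NS90

open FT80 BF80 LD90 MvPolynomial

namespace SgT

theorem mem_pd {i : ℕ} {F : PL} {m : ℕ × List ℕ} (h : m ∈ pd i F) :
    ∃ m' ∈ F, i ∈ m'.2 ∧ m.2.length + 1 = m'.2.length ∧ ∀ a ∈ m.2, a ∈ m'.2 := by
  rw [pd, List.mem_flatMap] at h
  obtain ⟨m', hm', h⟩ := h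
  obtain ⟨j, hj, h⟩ := List.mem_filterMap.1 h
  split_ifs at h with h1
  obtain ⟨h2, h3⟩ := List.getElem?_eq_some_iff.1 h1
  have h4 := Option.some.inj h
  subst h4
  refine ⟨m', hm', h3 ▸ List.getElem_mem h2, ?_, fun a ha => ?_⟩
  · have h5 := List.length_eraseIdx_add_one h2
    exact h5
  · exact (List.eraseIdx_sublist m'.2 j).subset ha

variable {k : Type*} [Field k]

/-- the variable with index `i`, if it is less than `n` -/
noncomputable def XV (k : Type*) [Field k] (n i : ℕ) : MvPolynomial (Fin n) k :=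
  if h : i < n then X ⟨i, h⟩ else 0

/-- the extension of a point by zero -/
def exz {S : Type*} [Field S] {n : ℕ} (x : Fin n → S) (i : ℕ) : S :=
  if h : i < n then x ⟨i, h⟩ else 0

/-- the polynomial as an element of a polynomial ring -/
noncomputable def PM (n : ℕ) (t : k) (f : PL) : MvPolynomial (Fin n) k :=
  (f.map fun m => C (t ^ m.1) * (m.2.map (XV k n)).prod).sum

theorem hom_prod (n : ℕ) (l : List ℕ) : ((l.map (XV k n)).prod).IsHomogeneous l.length := by
  induction l with
  | nil => simpa using isHomogeneous_one (Fin n) k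
  | cons a l ih =>
    rw [List.map_cons, List.prod_cons, List.length_cons, Nat.add_comm l.length 1]
    refine IsHomogeneous.mul ?_ ih
    rw [XV]
    split_ifs with h
    · exact isHomogeneous_X k _
    · exact isHomogeneous_zero _ _ _

theorem hom_PM (n : ℕ) (t : k) {D : ℕ} (f : PL) (h : ∀ m ∈ f, m.2.length = D) :
    (PM n t f).IsHomogeneous D := by
  induction f with
  | nil => exact isHomogeneous_zero _ _ _
  | cons a f ih =>
    rw [PM, List.map_cons, List.sum_cons]
    refine IsHomogeneous.add ?_ (ih fun m hm => h m (List.mem_cons_of_mem _ hm))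
    have h1 := (isHomogeneous_C (Fin n) (t ^ a.1)).mul (hom_prod (k := k) n a.2)
    rw [zero_add, h a List.mem_cons_self] at h1
    exact h1

theorem eval_PM {S : Type*} [Field S] (φ : k →+* S) (n : ℕ) (t : k) (f : PL) (x : Fin n → S) :
    eval₂ φ x (PM n t f) = ev (φ t) (exz x) f := by
  rw [PM, ev, ← coe_eval₂Hom, map_list_sum, List.map_map]
  congr 1
  refine List.map_congr_left fun m _ => ?_
  rw [Function.comp_apply, map_mul, map_list_prod, List.map_map, coe_eval₂Hom, eval₂_C, map_pow]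
  congr 2
  refine List.map_congr_left fun i _ => ?_
  rw [Function.comp_apply, XV, exz]
  split_ifs with h
  · exact eval₂_X _ _ _
  · exact eval₂_zero _ _

theorem eval_PM' (n : ℕ) (t : k) (f : PL) (x : Fin n → k) :
    eval x (PM n t f) = ev t (exz x) f := by
  have h := eval_PM (RingHom.id k) n t f x
  rw [RingHom.id_apply, eval₂_id] at h
  exact h

theorem Sing.map {R S : Type*} [Field R] [Field S] (φ : R →+* S) {t : R} {F : PL}
    (h : Sing t F) : Sing (φ t) F := by
  obtain ⟨y, ⟨m, hm, i, hi, h1⟩, h2⟩ := h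
  refine ⟨fun i => φ (y i), ⟨m, hm, i, hi, fun h => h1 ((map_eq_zero φ).1 h)⟩, fun i => ?_⟩
  rw [LD90.ev_map, h2 i, map_zero]

end SgT

open SgT in
/-- NS-2 (SingT.lean): transfer of singular zeros (homogeneous `F`) -/
theorem sing_k0 {p : ℕ} [Fact p.Prime] {M : Type} [Field M] {σ : P1 p →+* M}
    (hM : Mdl p σ) (F : PL) (d : ℕ) (hF : ∀ m ∈ F, m.2.length = d) :
    Sing (σ Polynomial.X) F ↔ Sing (sig0 p Polynomial.X) F := by
  classical
  obtain ⟨j, st, hj, hC⟩ := ctx_of_mdl p M σ hM
  constructor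
  · rintro ⟨y, ⟨m0, hm0, i0, hi0, hy0⟩, hy⟩
    set t0 := sig0 p Polynomial.X with ht0
    set n := Hg.bnd F with hn
    have hlt : ∀ m ∈ F, ∀ i ∈ m.2, i < n := fun m hm i hi => Hg.lt_bnd hm hi
    let V : ℕ → Prop := fun a => ∃ m ∈ F, a ∈ m.2
    let x : Fin n → M := fun a => if V a then y a else 0
    have hx : x ≠ 0 := by
      intro h
      have h1 := congrFun h ⟨i0, hlt m0 hm0 i0 hi0⟩
      have h2 : V i0 := ⟨m0, hm0, hi0⟩
      simp only [x, if_pos h2, Pi.zero_apply] at h1
      exact hy0 h1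
    have hpd : ∀ i, ∀ m ∈ pd i F, ∀ a ∈ m.2, V a := by
      intro i m hm a ha
      obtain ⟨m', hm', -, -, h⟩ := mem_pd hm
      exact ⟨m', hm', h a ha⟩
    have hx0 : ∀ i, eval₂ j x (PM n t0 (pd i F)) = 0 := by
      intro i
      rw [eval_PM, hj, ← hy i]
      refine Hg.ev_congr _ fun m hm a ha => ?_
      have h1 := hpd i m hm a ha
      obtain ⟨m', hm', h2⟩ := h1
      rw [exz, dif_pos (hlt m' hm' a h2)]
      simp only [x]
      exact if_pos ⟨m', hm', h2⟩
    obtain ⟨l, ξ, hl, hξ⟩ := exists_place_point hC hx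
    have hlV : V l := by
      by_contra h
      have h1 : eval₂ j x (X l : MvPolynomial (Fin n) (k0 p)) = 0 := by
        rw [eval₂_X]
        simp only [x]
        exact if_neg h
      have h2 := hξ _ 1 (isHomogeneous_X _ l) h1
      rw [eval₂_X, hl] at h2
      exact one_ne_zero h2
    obtain ⟨z, hz1, hz2⟩ := hC.ec n ξ ((Finset.range n).image fun i => PM n t0 (pd i F)) (X l) (by
      intro f hf
      obtain ⟨i, -, rfl⟩ := Finset.mem_image.1 hf
      refine hξ _ (d - 1) (hom_PM n t0 _ fun m hm => ?_) (hx0 i)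
      obtain ⟨m', hm', -, h, -⟩ := mem_pd hm
      rw [hF m' hm'] at h
      omega) (by
      rw [eval₂_X, hl]
      exact one_ne_zero)
    obtain ⟨m1, hm1, hl1⟩ := hlV
    refine ⟨exz z, ⟨m1, hm1, l, hl1, ?_⟩, fun i => ?_⟩
    · rw [exz, dif_pos l.2]
      rw [eval_X] at hz2
      exact hz2
    · by_cases hi : i < n
      · rw [← eval_PM']
        exact hz1 _ (Finset.mem_image.2 ⟨i, Finset.mem_range.2 hi, rfl⟩)
      · have h1 : pd i F = [] := by
          rw [List.eq_nil_iff_forall_not_mem]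
          intro m hm
          obtain ⟨m', hm', h2, -, -⟩ := mem_pd hm
          exact hi (hlt m' hm' i h2)
        rw [h1]
        simp [ev]
  · intro h
    rw [← hj]
    exact Sing.map j h

end NS90
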