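import Pool.Agent.NS90.Defs
import Pool.Agent.CB90.Trunc

/-!
# Only finitely many base variables matter
-/

namespace NS90

open LD90

section map

variable {R : Type*} [CommRing R]

theorem pv_congr_s {n d : ℕ} (t : R) {s s' : ℕ → R} (h : ∀ i ≤ n, s i = s' i) (z : ℕ → R)
    (f : PZ) (hf : Deg n d f) : pv t s z f = pv t s' z f := by
  rw [pv, pv]
  congr 1
  refine List.map_congr_left fun m hm => ?_
  rw [CB90.ev_congr (hf m hm).1 t h]

/-- the other base variables are irrelevant -/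
theorem trunc {p : ℕ} [Fact p.Prime] (t : R) (r : R → R → Prop) (a : Inp)
    (ha : Adm p a) (h : PSol t r a) :
    ∃ s z : ℕ → R, (∀ i, a.1.length < i → s i = 0) ∧ Base t a.1 s ∧
    (∀ l ∈ a.2.1, pv t s z l = 0) ∧
    (∀ l ∈ a.2.2.1, pv t s z l ≠ 0) ∧
    (∀ m ∈ a.2.2.2.1, ∃ y : ℕ → R, pv t s z m.1 = ev t y m.2) ∧
    (∀ m ∈ a.2.2.2.2.1, ∃ x : ℕ → R, pv t s z m.1 = pv t s x m.2) ∧
    ∀ m ∈ a.2.2.2.2.2, r (pv t s z m.1) (pv t s z m.2) := by
  obtain ⟨B, E, N, F, Q, V⟩ := a
  obtain ⟨aB, aE, aN, aF, aQ, aV⟩ := ha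
  obtain ⟨s, z, hB, hE, hN, hF, hQ, hV⟩ := h
  let s' : ℕ → R := fun i => if i ≤ B.length then s i else 0
  have hs : ∀ i ≤ B.length, s i = s' i := fun i hi => by
    simp only [s', if_pos hi]
  refine ⟨s', z, fun i hi => if_neg (not_le.2 hi), ?_, ?_, ?_, ?_, ?_, ?_⟩
  · intro i b hb
    have hi : i + 1 ≤ B.length := by
      have h7 : i < B.length := (List.getElem?_eq_some_iff.1 hb).1
      omega
    obtain ⟨h4, w, h5⟩ := hB i b hb
    have h6 : ∀ j ≤ i + 1, s j = s' j := fun j hj => hs j (hj.trans hi)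
    refine ⟨?_, w, ?_⟩
    · rw [← CB90.ev_congr (aB i b hb) t h6]
      exact h4
    · rw [← CB90.ev_congr (aB i b hb) t (s := Function.update s (i + 1) w)]
      · exact h5
      · intro j hj
        by_cases hji : j = i + 1
        · subst hji
          rw [Function.update_self, Function.update_self]
        · rw [Function.update_of_ne hji, Function.update_of_ne hji]
          exact h6 j hj
  · intro l hl
    rw [← pv_congr_s t hs z l (aE l hl)]
    exact hE l hl
  · intro l hl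
    rw [← pv_congr_s t hs z l (aN l hl)]
    exact hN l hl
  · intro m hm
    obtain ⟨y, hy⟩ := hF m hm
    refine ⟨y, ?_⟩
    rw [← pv_congr_s t hs z m.1 (aF m hm).1]
    exact hy
  · intro m hm
    obtain ⟨x, hx⟩ := hQ m hm
    refine ⟨x, ?_⟩
    rw [← pv_congr_s t hs z m.1 (aQ m hm).1, ← pv_congr_s t hs x m.2 (aQ m hm).2]
    exact hx
  · intro m hm
    rw [← pv_congr_s t hs z m.1 (aV m hm).1, ← pv_congr_s t hs z m.2 (aV m hm).2]
    exact hV m hm

end map

end NS90
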