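import Pool.Agent.DS90.LinMap
import Pool.Agent.NS90.Defs
import Pool.Agent.CB90.Up
import Pool.Agent.NS90.ValueClass
import Pool.Agent.FB90.Up
import Pool.Agent.OP90.QuadNF
import Pool.Agent.BF80.Val

/-!
# Solvable systems are solvable in every relatively closed subfield
-/

set_option maxSynthPendingDepth 10

namespace NS90

open FT80 BF80 LD90

namespace UpM

/-- finite sets for all members of a list -/
theorem list_fin {α β : Type*} [DecidableEq β] (P : α → Finset β → Prop)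
    (hP : ∀ a T T', T ⊆ T' → P a T → P a T') (L : List α) (h : ∀ a ∈ L, ∃ T, P a T) :
    ∃ T, ∀ a ∈ L, P a T := by
  induction L with
  | nil => exact ⟨∅, fun a ha => absurd ha List.not_mem_nil⟩
  | cons a L ih =>
    obtain ⟨T, hT⟩ := ih fun b hb => h b (List.mem_cons_of_mem _ hb)
    obtain ⟨T', hT'⟩ := h a List.mem_cons_self
    refine ⟨T ∪ T', fun b hb => ?_⟩
    rcases List.mem_cons.1 hb with rfl | hb
    · exact hP _ _ _ Finset.subset_union_right hT'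
    · exact hP _ _ _ Finset.subset_union_left (hT b hb)

/-- a common multiple of the degrees -/
theorem list_deg {p : ℕ} [hp : Fact p.Prime] {α : Type*} (P : α → ℕ → Prop) (L : List α)
    (h : ∀ a ∈ L, ∃ d, ¬ p ∣ d ∧ P a d) :
    ∃ D, ¬ p ∣ D ∧ ∀ a ∈ L, ∃ d, d ∣ D ∧ ¬ p ∣ d ∧ P a d := by
  induction L with
  | nil => exact ⟨1, hp.out.not_dvd_one, fun a ha => absurd ha List.not_mem_nil⟩
  | cons a L ih =>
    obtain ⟨D, hD, hD'⟩ := ih fun b hb => h b (List.mem_cons_of_mem _ hb)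
    obtain ⟨d, hd, hd'⟩ := h a List.mem_cons_self
    refine ⟨D * d, fun h0 => ?_, fun b hb => ?_⟩
    · rcases hp.out.dvd_mul.1 h0 with h0 | h0
      · exact hD h0
      · exact hd h0
    rcases List.mem_cons.1 hb with rfl | hb
    · exact ⟨d, dvd_mul_left _ _, hd, hd'⟩
    · obtain ⟨e, h1, h2, h3⟩ := hD' b hb
      exact ⟨e, h1.trans (dvd_mul_right _ _), h2, h3⟩

section

variable {p : ℕ} [hp : Fact p.Prime] {M : Type} [Field M] {σ : P1 p →+* M}

theorem ev_mem (E : Subfield M) {t : M} (ht : t ∈ E) {s : ℕ → M} (hs : ∀ i, s i ∈ E) (a : PL) :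
    ev t s a ∈ E := by
  have h1 := CB90.ev_map' E.subtype (⟨t, ht⟩ : E) (fun i => (⟨s i, hs i⟩ : E)) a
  have h2 : ev t s a = (ev (⟨t, ht⟩ : E) (fun i => (⟨s i, hs i⟩ : E)) a : E) := h1
  rw [h2]
  exact SetLike.coe_mem _

theorem pv_cons {R : Type*} [CommRing R] (t : R) (s z : ℕ → R) (m : PL × List ℕ) (l : PZ) :
    pv t s z (m :: l) = ev t s m.1 * (m.2.map z).prod + pv t s z l := by
  rw [pv, List.map_cons, List.sum_cons]
  rfl

/-- linear functionals and polynomials of degree at most one -/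
theorem pv_lin (E : Subfield M) (φ : M →ₗ[E] E) (hφ : φ 1 = 1) {t : M} (ht : t ∈ E) {s : ℕ → M}
    (hs : ∀ i, s i ∈ E) (z : ℕ → M) (l : PZ) (hl : ∀ m ∈ l, m.2.length ≤ 1) :
    pv t s (fun i => ((φ (z i) : E) : M)) l = ((φ (pv t s z l) : E) : M) := by
  induction l with
  | nil => simp [pv]
  | cons m l ih =>
    rw [pv_cons, pv_cons, ih fun m hm => hl m (List.mem_cons_of_mem _ hm), map_add,
      Subfield.coe_add]
    congr 1
    have h1 : ∀ x : M, φ (ev t s m.1 * x) = (⟨ev t s m.1, ev_mem E ht hs m.1⟩ : E) * φ x := by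
      intro x
      have h2 : ev t s m.1 * x = (⟨ev t s m.1, ev_mem E ht hs m.1⟩ : E) • x := rfl
      rw [h2, map_smul, smul_eq_mul]
    rw [h1, Subfield.coe_mul]
    congr 1
    have h3 := hl m List.mem_cons_self
    rcases m with ⟨c, l'⟩
    simp only at h3 ⊢
    rcases l' with _ | ⟨i, l'⟩
    · simp [hφ]
    · rcases l' with _ | ⟨i', l'⟩
      · simp
      · simp only [List.length_cons] at h3
        omega

/-- powers -/
theorem pow_phi {E : Subfield M} (hE2 : ∀ (z : M) (n : ℕ), n ≠ 0 → z ^ n ∈ E → z ∈ E)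
    {D : ℕ} (φ : M →ₗ[E] E) {T : Finset M}
    (hφ : ∀ f ∈ T, f ≠ 0 → ∃ m : M, m ≠ 0 ∧ (φ f : M) = f * m ^ D) {d : ℕ} (hd0 : d ≠ 0)
    (hd : d ∣ D) (ζ : M) (hζ : ζ ^ d ∈ T) : ∃ w ∈ E, w ^ d = (φ (ζ ^ d) : M) := by
  by_cases h0 : ζ ^ d = 0
  · refine ⟨0, E.zero_mem, ?_⟩
    rw [h0, map_zero, zero_pow hd0]
    rfl
  · obtain ⟨m, -, hm⟩ := hφ _ hζ h0
    obtain ⟨e, rfl⟩ := hd
    have h1 : (ζ * m ^ e) ^ d = (φ (ζ ^ d) : M) := by
      rw [hm, mul_pow, ← pow_mul, mul_comm e d]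
    refine ⟨ζ * m ^ e, hE2 _ d hd0 ?_, h1⟩
    rw [h1]
    exact SetLike.coe_mem _

/-- DS-3 for a relatively closed subfield -/
theorem up_of (hM : Mdl p σ) (j : k0 p →+* M) (hj : ∀ f, j (sig0 p f) = σ f)
    (E : Subfield M) (hE1 : ∀ a, j a ∈ E) (hE2 : ∀ (z : M) (n : ℕ), n ≠ 0 → z ^ n ∈ E → z ∈ E)
    (a : Inp) (ha : Adm p a) (s z : ℕ → M) (hs : ∀ i, s i ∈ E)
    (hE : ∀ l ∈ a.2.1, pv (σ Polynomial.X) s z l = 0)
    (hN : ∀ l ∈ a.2.2.1, pv (σ Polynomial.X) s z l ≠ 0)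
    (hF : ∀ m ∈ a.2.2.2.1, ∃ y : ℕ → M, pv (σ Polynomial.X) s z m.1 = ev (σ Polynomial.X) y m.2)
    (hQ : ∀ m ∈ a.2.2.2.2.1, ∃ x : ℕ → M,
      pv (σ Polynomial.X) s z m.1 = pv (σ Polynomial.X) s x m.2)
    (hV : ∀ m ∈ a.2.2.2.2.2, DV (σ Polynomial.X) (pv (σ Polynomial.X) s z m.1)
      (pv (σ Polynomial.X) s z m.2)) :
    ∃ z : ℕ → M, (∀ i, z i ∈ E) ∧
      (∀ l ∈ a.2.1, pv (σ Polynomial.X) s z l = 0) ∧
      (∀ l ∈ a.2.2.1, pv (σ Polynomial.X) s z l ≠ 0) ∧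
      (∀ m ∈ a.2.2.2.1, ∃ y : ℕ → M, (∀ i, y i ∈ E) ∧
        pv (σ Polynomial.X) s z m.1 = ev (σ Polynomial.X) y m.2) ∧
      (∀ m ∈ a.2.2.2.2.1, ∃ x : ℕ → M, (∀ i, x i ∈ E) ∧
        pv (σ Polynomial.X) s z m.1 = pv (σ Polynomial.X) s x m.2) ∧
      ∀ m ∈ a.2.2.2.2.2, DV (σ Polynomial.X) (pv (σ Polynomial.X) s z m.1)
        (pv (σ Polynomial.X) s z m.2) := by
  classical
  obtain ⟨B, LE, LN, LF, LQ, LV⟩ := a
  obtain ⟨-, haE, haN, haF, haQ, haV⟩ := ha
  simp only at hE hN hF hQ hV haE haN haF haQ haV ⊢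
  have htE : σ Polynomial.X ∈ E := by rw [← hj]; exact hE1 _
  have : Infinite E := Infinite.of_injective (fun n : ℕ => (⟨σ Polynomial.X, htE⟩ : E) ^ n) (by
    intro a b hab
    have h1 : σ (Polynomial.X ^ a) = σ (Polynomial.X ^ b) := by
      rw [map_pow, map_pow]
      exact congrArg (Subtype.val : E → M) hab
    have h2 := congrArg Polynomial.natDegree (hM.σ_injective h1)
    rwa [Polynomial.natDegree_X_pow, Polynomial.natDegree_X_pow] at h2)
  set t := σ Polynomial.X with ht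
  -- the degrees of the forms
  obtain ⟨D0, hD0, hD1⟩ := list_deg (p := p)
    (fun (m : PZ × PL) d => (∀ m' ∈ m.2, m'.2.length = d) ∧ (d ≤ 3 ∨
      ¬ Sing (HahnSeries.single 1 1 : LaurentSeries (ZMod p)) m.2))
    LF (fun m hm => by
      obtain ⟨d, h1, h2, h3⟩ := (haF m hm).2
      exact ⟨d, h1, h2, h3⟩)
  set D := D0 * (if p = 2 then 1 else 2) with hD
  have hpD : ¬ p ∣ D := by
    intro h
    rcases hp.out.dvd_mul.1 h with h | h
    · exact hD0 h
    · split_ifs at h with h2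
      · exact hp.out.not_dvd_one h
      · exact h2 ((Nat.prime_dvd_prime_iff_eq hp.out Nat.prime_two).1 h)
  -- the forms
  let PF : (PZ × PL) → Finset M → Prop := fun m T => ∃ (d γ i : ℕ) (ζ : M) (y0 : ℕ → k0 p),
    d ≠ 0 ∧ d ∣ D ∧ (∀ m' ∈ m.2, m'.2.length = d) ∧ pv t s z m.1 = γ * t ^ i * ζ ^ d ∧
      ev (sig0 p Polynomial.X) y0 m.2 = γ * sig0 p Polynomial.X ^ i ∧ ζ ^ d ∈ T
  obtain ⟨TF, hTF⟩ := list_fin PF (by
      rintro m T T' hT ⟨d, γ, i, ζ, y0, h1, h2, h3, h4, h5, h6⟩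
      exact ⟨d, γ, i, ζ, y0, h1, h2, h3, h4, h5, hT h6⟩) LF (by
      intro m hm
      obtain ⟨d, h1, h2, h3, h4⟩ := hD1 m hm
      obtain ⟨y, hy⟩ := hF m hm
      obtain ⟨γ, i, ζ, y0, h5, h6⟩ := value_class hM m.2 d h2 h3 h4 y
      refine ⟨{ζ ^ d}, d, γ, i, ζ, y0, fun h => h2 (h ▸ dvd_zero p), h1.trans (dvd_mul_right _ _),
        h3, ?_, h6, Finset.mem_singleton_self _⟩
      rw [hy]
      exact h5)
  -- the polynomials of degree two
  let PQ : (PZ × PZ) → Finset M → Prop := fun m T =>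
    (∀ c ∈ E, ∃ x : ℕ → M, (∀ i, x i ∈ E) ∧ c = pv t s x m.2) ∨
      ∃ (r : ℕ) (w : Fin r → M) (c : M) (ζ : Fin r → M), (∀ i, w i ∈ E) ∧ c ∈ E ∧
        (p = 2 → r = 0) ∧ pv t s z m.1 = ∑ i, w i * ζ i ^ 2 + c ∧
        (∀ v : Fin r → M, (∀ i, v i ∈ E) → ∃ x : ℕ → M, (∀ i, x i ∈ E) ∧
          ∑ i, w i * v i ^ 2 + c = pv t s x m.2) ∧ ∀ i, ζ i ^ 2 ∈ T
  obtain ⟨TQ, hTQ⟩ := list_fin PQ (by
      rintro m T T' hT (h | ⟨r, w, c, ζ, h1, h2, h3, h4, h5, h6⟩)
      · exact Or.inl h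
      · exact Or.inr ⟨r, w, c, ζ, h1, h2, h3, h4, h5, fun i => hT (h6 i)⟩) LQ (by
      intro m hm
      obtain ⟨x, hx⟩ := hQ m hm
      have hdeg := (haQ m hm).2
      let tE : E := ⟨t, htE⟩
      let sE : ℕ → E := fun i => ⟨s i, hs i⟩
      set N := CB90.bq m.2 with hN
      set q := CB90.QP N tE sE m.2 with hq
      have hqv : ∀ w : Fin N → E, CB90.qv t s (CB90.ext fun i => (w i : M)) m.2 =
          ((MvPolynomial.eval w q : E) : M) := by
        intro w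
        have h1 := CB90.eval₂_QP E.subtype N tE sE m.2 (fun i => (w i : M))
        have h2 : MvPolynomial.eval₂ E.subtype (fun i => (w i : M)) q =
            E.subtype (MvPolynomial.eval w q) := LD90.eval₂_comp_eval E.subtype w q
        exact h1.symm.trans h2
      have hextE : ∀ {r : ℕ} (w : Fin r → E), ∀ i, CB90.ext (fun i => (w i : M)) i ∈ E := by
        intro r w i
        rw [CB90.ext]
        split_ifs with h
        · exact (w _).2
        · exact zero_mem _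
      have hqx : MvPolynomial.eval₂ E.subtype (fun i : Fin N => x i) q = CB90.qv t s x m.2 := by
        rw [hq, CB90.eval₂_QP]
        apply CB90.qv_congr
        intro m' hm' i hi
        rw [CB90.ext, dif_pos (CB90.lt_bq hm' hi)]
      have hnf : (∀ c : E, ∃ x : Fin N → E, MvPolynomial.eval x q = c) ∨
          ∃ (r : ℕ) (w : Fin r → E) (c : E), (p = 2 → r = 0) ∧
            (∀ x : Fin N → M, ∃ z : Fin r → M,
              MvPolynomial.eval₂ E.subtype x q = ∑ i, (w i : M) * z i ^ 2 + c) ∧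
            ∀ z : Fin r → E, ∃ x : Fin N → E, MvPolynomial.eval x q = ∑ i, w i * z i ^ 2 + c := by
        by_cases h2 : p = 2
        · rcases OP90.lin_nf E.subtype q (CB90.deg_QP N tE sE m.2 1 fun m' hm' => by
            have h3 := (hdeg m' hm').2
            rwa [if_pos h2] at h3) with h3 | h3
          · exact Or.inl h3
          · obtain ⟨c, hc1, hc2⟩ := h3
            refine Or.inr ⟨0, fun i => i.elim0, c, fun _ => rfl, fun x => ⟨fun i => i.elim0, ?_⟩,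
              fun z => ⟨0, ?_⟩⟩
            · rw [hc1]
              simp
            · rw [hc2]
              simp
        · rcases OP90.quad_nf E.subtype (OP90.two_ne hM h2 E) q
            (CB90.deg_QP N tE sE m.2 2 fun m' hm' => by
              have h3 := (hdeg m' hm').2
              rwa [if_neg h2] at h3) with h3 | h3
          · exact Or.inl h3
          · obtain ⟨r, w, c, h4, h5⟩ := h3
            exact Or.inr ⟨r, w, c, fun h => absurd h h2, h4, h5⟩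
      rcases hnf with hnf | ⟨r, w, c, h1, h2, h3⟩
      · refine ⟨∅, Or.inl fun c hc => ?_⟩
        obtain ⟨v, hv⟩ := hnf ⟨c, hc⟩
        refine ⟨CB90.ext fun i => (v i : M), hextE v, ?_⟩
        have h4 := hqv v
        rw [hv] at h4
        exact h4.symm
      · obtain ⟨ζ, hζ⟩ := h2 (fun i : Fin N => x i)
        refine ⟨Finset.univ.image fun i => ζ i ^ 2, Or.inr ⟨r, fun i => w i, c, ζ,
          fun i => (w i).2, c.2, h1, ?_, ?_, fun i => Finset.mem_image.2 ⟨i, Finset.mem_univ _, rfl⟩⟩⟩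
        · rw [hx, ← hζ, hqx]
          rfl
        · intro v hv
          obtain ⟨u, hu⟩ := h3 fun i => ⟨v i, hv i⟩
          refine ⟨CB90.ext fun i => (u i : M), hextE u, ?_⟩
          have h4 := hqv u
          rw [hu] at h4
          have h5 : (((∑ i, w i * (⟨v i, hv i⟩ : E) ^ 2 + c : E)) : M) =
              ∑ i, (w i : M) * v i ^ 2 + c := by
            rw [← Subfield.subtype_apply, map_add, map_sum]
            rfl
          rw [h5] at h4
          exact h4.symm)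
  -- the finite set
  set T : Finset M := TF ∪ TQ ∪ (LN.map fun l => pv t s z l).toFinset ∪
    (LV.map fun m => pv t s z m.1).toFinset ∪ (LV.map fun m => pv t s z m.2).toFinset with hT
  obtain ⟨φ, hφ1, hφ2, hφ3⟩ := DS90.lin_map hM j hj E hE1 hE2 hpD (T.erase 0)
    (Finset.notMem_erase _ _)
  have hφ4 : ∀ f ∈ T, f ≠ 0 → ∃ m : M, m ≠ 0 ∧ (φ f : M) = f * m ^ D := fun f hf h0 =>
    hφ2 f (Finset.mem_erase.2 ⟨h0, hf⟩)
  have hφ0 : ∀ f ∈ T, f ≠ 0 → (φ f : M) ≠ 0 := by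
    intro f hf h0
    obtain ⟨m, hm, h⟩ := hφ4 f hf h0
    rw [h]
    exact mul_ne_zero h0 (pow_ne_zero _ hm)
  have hlin : ∀ l : PZ, Deg B.length 1 l → pv t s (fun i => ((φ (z i) : E) : M)) l =
      ((φ (pv t s z l) : E) : M) := fun l hl =>
    pv_lin E φ hφ1 htE hs z l fun m hm => (hl m hm).2
  refine ⟨fun i => ((φ (z i) : E) : M), fun i => SetLike.coe_mem _, ?_, ?_, ?_, ?_, ?_⟩
  · intro l hl
    rw [hlin l (haE l hl), hE l hl, map_zero]
    rfl
  · intro l hl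
    rw [hlin l (haN l hl)]
    refine hφ0 _ ?_ (hN l hl)
    simp only [hT, Finset.mem_union, List.mem_toFinset, List.mem_map]
    exact Or.inl (Or.inl (Or.inr ⟨l, hl, rfl⟩))
  · intro m hm
    obtain ⟨d, γ, i, ζ, y0, h1, h2, h3, h4, h5, h6⟩ := hTF m hm
    obtain ⟨w, hw, hw'⟩ := pow_phi hE2 φ hφ4 h1 h2 ζ (by
      simp only [hT, Finset.mem_union]
      exact Or.inl (Or.inl (Or.inl (Or.inl h6))))
    refine ⟨fun k => w * j (y0 k), fun k => E.mul_mem hw (hE1 _), ?_⟩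
    rw [hlin m.1 (haF m hm).1, FB90.ev_hom _ _ _ m.2 d h3, h4]
    have h7 : ev t (fun k => j (y0 k)) m.2 = γ * t ^ i := by
      rw [ht, ← hj, CB90.ev_map', h5, map_mul, map_pow, map_natCast]
    rw [h7, hw']
    have hc : (γ : M) * t ^ i ∈ E := E.mul_mem (natCast_mem E γ) (E.pow_mem htE i)
    have h8 : (γ : M) * t ^ i * ζ ^ d = (⟨(γ : M) * t ^ i, hc⟩ : E) • ζ ^ d := rfl
    rw [h8, map_smul, smul_eq_mul, Subfield.coe_mul]
    ring
  · intro m hm
    rw [hlin m.1 (haQ m hm).1]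
    rcases hTQ m hm with h | ⟨r, w, c, ζ, h1, h2, h3, h4, h5, h6⟩
    · exact h _ (SetLike.coe_mem _)
    · have h7 : ∀ i, ∃ v ∈ E, v ^ 2 = (φ (ζ i ^ 2) : M) := by
        intro i
        have h2 : ¬ p = 2 := by
          intro h
          have := h3 h
          subst this
          exact i.elim0
        refine pow_phi hE2 φ hφ4 two_ne_zero ?_ (ζ i) ?_
        · rw [hD, if_neg h2]
          exact dvd_mul_left _ _
        · simp only [hT, Finset.mem_union]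
          exact Or.inl (Or.inl (Or.inl (Or.inr (h6 i))))
      choose v hv1 hv2 using h7
      obtain ⟨x, hx1, hx2⟩ := h5 v hv1
      refine ⟨x, hx1, ?_⟩
      rw [← hx2, h4]
      have h8 : ∀ f ∈ E, (φ f : M) = f := by
        intro f hf
        have h9 : f = (⟨f, hf⟩ : E) • (1 : M) := by
          rw [Subfield.smul_def, smul_eq_mul, mul_one]
        have h10 : φ f = (⟨f, hf⟩ : E) := by
          conv_lhs => rw [h9]
          rw [map_smul, hφ1, smul_eq_mul, mul_one]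
        rw [h10]
      have h9 : ∀ i, φ (w i * ζ i ^ 2) = (⟨w i, h1 i⟩ : E) * φ (ζ i ^ 2) := by
        intro i
        have h10 : w i * ζ i ^ 2 = (⟨w i, h1 i⟩ : E) • ζ i ^ 2 := rfl
        rw [h10, map_smul, smul_eq_mul]
      rw [map_add, map_sum, Subfield.coe_add, h8 c h2]
      congr 1
      rw [← Subfield.subtype_apply, map_sum]
      refine Finset.sum_congr rfl fun i _ => ?_
      rw [h9, map_mul, hv2]
      rfl
  · intro m hm
    rw [hlin m.1 (haV m hm).1, hlin m.2 (haV m hm).2]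
    have h1 := hV m hm
    rw [hM.DV_iff] at h1 ⊢
    have hm1 : pv t s z m.1 ∈ T := by
      simp only [hT, Finset.mem_union, List.mem_toFinset, List.mem_map]
      exact Or.inl (Or.inr ⟨m, hm, rfl⟩)
    have hm2 : pv t s z m.2 ∈ T := by
      simp only [hT, Finset.mem_union, List.mem_toFinset, List.mem_map]
      exact Or.inr ⟨m, hm, rfl⟩
    by_cases h2 : pv t s z m.2 = 0
    · rw [h2, map_zero]
      show hM.fv ((0 : E) : M) ≤ _
      rw [Subfield.coe_zero, map_zero]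
      exact zero_le
    · have h3 : pv t s z m.1 ≠ 0 := by
        intro h3
        rw [h3, map_zero, le_zero_iff, map_eq_zero] at h1
        exact h2 h1
      exact hφ3 _ (Finset.mem_erase.2 ⟨h2, hm2⟩) _ (Finset.mem_erase.2 ⟨h3, hm1⟩) h1

end

end UpM

/-- DS-3 (Up.lean): a solution for the parameter `s` gives a solution by elements algebraic over
`s` -/
theorem up {p : ℕ} [Fact p.Prime] {M : Type} [Field M] {σ : P1 p →+* M} (hM : Mdl p σ)
    (a : Inp) (ha : Adm p a) (s z : ℕ → M) (hs : ∀ i, OP90.RAlg σ (s 0) (s i))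
    (hE : ∀ l ∈ a.2.1, pv (σ Polynomial.X) s z l = 0)
    (hN : ∀ l ∈ a.2.2.1, pv (σ Polynomial.X) s z l ≠ 0)
    (hF : ∀ m ∈ a.2.2.2.1, ∃ y : ℕ → M, pv (σ Polynomial.X) s z m.1 = ev (σ Polynomial.X) y m.2)
    (hQ : ∀ m ∈ a.2.2.2.2.1, ∃ x : ℕ → M,
      pv (σ Polynomial.X) s z m.1 = pv (σ Polynomial.X) s x m.2)
    (hV : ∀ m ∈ a.2.2.2.2.2, DV (σ Polynomial.X) (pv (σ Polynomial.X) s z m.1)
      (pv (σ Polynomial.X) s z m.2)) :
    ∃ z : ℕ → M, (∀ i, OP90.RAlg σ (s 0) (z i)) ∧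
      (∀ l ∈ a.2.1, pv (σ Polynomial.X) s z l = 0) ∧
      (∀ l ∈ a.2.2.1, pv (σ Polynomial.X) s z l ≠ 0) ∧
      (∀ m ∈ a.2.2.2.1, ∃ y : ℕ → M, (∀ i, OP90.RAlg σ (s 0) (y i)) ∧
        pv (σ Polynomial.X) s z m.1 = ev (σ Polynomial.X) y m.2) ∧
      (∀ m ∈ a.2.2.2.2.1, ∃ x : ℕ → M, (∀ i, OP90.RAlg σ (s 0) (x i)) ∧
        pv (σ Polynomial.X) s z m.1 = pv (σ Polynomial.X) s x m.2) ∧
      ∀ m ∈ a.2.2.2.2.2, DV (σ Polynomial.X) (pv (σ Polynomial.X) s z m.1)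
        (pv (σ Polynomial.X) s z m.2) := by
  obtain ⟨j, hj, -⟩ := hM.exists_j
  by_cases h0 : BF80.Alg1 σ (s 0)
  · obtain ⟨z', h1, h2, h3, h4, h5, h6⟩ := UpM.up_of hM j hj (algField σ)
      (fun a => hM.alg1_hom j hj a) (fun z n hn hz => OP90.root_mem σ hn hz) a ha s z
      (fun i => (OP90.RAlg.iff_alg h0 _).1 (hs i)) hE hN hF hQ hV
    refine ⟨z', fun i => (OP90.RAlg.iff_alg h0 _).2 (h1 i), h2, h3, fun m hm => ?_,
      fun m hm => ?_, h6⟩
    · obtain ⟨y, hy1, hy2⟩ := h4 m hm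
      exact ⟨y, fun i => (OP90.RAlg.iff_alg h0 _).2 (hy1 i), hy2⟩
    · obtain ⟨y, hy1, hy2⟩ := h5 m hm
      exact ⟨y, fun i => (OP90.RAlg.iff_alg h0 _).2 (hy1 i), hy2⟩
  · obtain ⟨z', h1, h2, h3, h4, h5, h6⟩ := UpM.up_of hM j hj (algField (ev1 σ (s 0)))
      (fun a => alg1_lift (hM.alg1_hom j hj a)) (fun z n hn hz => OP90.root_mem _ hn hz) a ha s z
      (fun i => (OP90.RAlg.iff_trans h0 _).1 (hs i)) hE hN hF hQ hV
    refine ⟨z', fun i => (OP90.RAlg.iff_trans h0 _).2 (h1 i), h2, h3, fun m hm => ?_,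
      fun m hm => ?_, h6⟩
    · obtain ⟨y, hy1, hy2⟩ := h4 m hm
      exact ⟨y, fun i => (OP90.RAlg.iff_trans h0 _).2 (hy1 i), hy2⟩
    · obtain ⟨y, hy1, hy2⟩ := h5 m hm
      exact ⟨y, fun i => (OP90.RAlg.iff_trans h0 _).2 (hy1 i), hy2⟩

end NS90
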