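import Pool.Agent.CB90.BaseMem
import Pool.Agent.DS90.Down
import Pool.Agent.NS90.Map
import Pool.Agent.NS90.Up

/-!
# Solvability in the models and in `k0`
-/

set_option maxSynthPendingDepth 10

namespace NS90

open FT80 BF80 LD90

section core

variable {p : ℕ} [Fact p.Prime] {M : Type} [Field M] {σ : P1 p →+* M}

/-- solvability in a model is solvability in `k0` -/
theorem psol_k0 (hM : Mdl p σ) (a : Inp) (ha : Adm p a) :
    PSol (σ Polynomial.X) (DV (σ Polynomial.X)) a ↔
      PSol (sig0 p Polynomial.X) (DV (sig0 p Polynomial.X)) a := by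
  obtain ⟨j, hj, -⟩ := hM.exists_j
  constructor
  · intro h
    obtain ⟨s, z, hs0, hB, hE, hN, hF, hQ, hV⟩ := trunc _ _ a ha h
    have hmem : ∀ i, OP90.RAlg σ (s 0) (s i) := by
      intro i
      by_cases hi : i ≤ a.1.length
      · by_cases h0 : BF80.Alg1 σ (s 0)
        · exact (OP90.RAlg.iff_alg h0 _).2 (CB90.base_mem σ (σ Polynomial.X)
            (CI.map_mem_algField σ _) a.1 s h0 ha.1 hB i hi)
        · refine (OP90.RAlg.iff_trans h0 _).2 (CB90.base_mem (ev1 σ (s 0)) (σ Polynomial.X) ?_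
            a.1 s (x_mem_acl (s 0)) ha.1 hB i hi)
          rw [← hj]
          exact alg1_lift (hM.alg1_hom j hj _)
      · rw [hs0 i (not_le.1 hi)]
        by_cases h0 : BF80.Alg1 σ (s 0)
        · exact (OP90.RAlg.iff_alg h0 _).2 (zero_mem (algField σ))
        · exact (OP90.RAlg.iff_trans h0 _).2 (zero_mem (algField (ev1 σ (s 0))))
    obtain ⟨z', hz', hE', hN', hF', hQ', hV'⟩ := up hM a ha s z hmem hE hN hF hQ hV
    exact DS90.down hM a s z' hmem hz' hB hE' hN' hF' hQ' hV'
  · intro h
    have h2 : DS90.PSol (sig0 p Polynomial.X) (DV (sig0 p Polynomial.X)) a := h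
    have h3 := DS90.Dn.PSol_map j j.injective h2
    rw [hj] at h3
    exact h3

end core

end NS90
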